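import Pool.Agent.V11297.NSMain

/-!
# Numerical semigroups with two incomparable elements in `𝓔(S)` are complete intersections

All definitions (`IsNumerical`, `IsMinGen`, `Gen`, `LeS`, `semiPoly`, `IsExponentSequence`, `ESet`,
`phi`, `IsPresentation`, `IsMinimalPresentation`, `IsCompleteIntersection`) are those of
`Pool.Agent.V11297.NSDef`.
-/

namespace Pool.Agent.Results.MP_a0aa5b_al.TwoIncomparable

open Pool.Agent.V11297.NS

/-- If `S` is a numerical semigroup with exponent sequence `e` and `𝓔(S) = {a, b}` with `a`, `b`
distinct and incomparable for `≤_S`, then `S` is a complete intersection. -/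
theorem result (S : AddSubmonoid ℕ) (hS : IsNumerical S) (e : ℕ → ℤ)
    (he : IsExponentSequence S e) (a b : ℕ) (hab : a ≠ b) (hE : ESet S e = {a, b})
    (h1 : ¬ LeS S a b) (h2 : ¬ LeS S b a) : IsCompleteIntersection S :=
  main hS he hab hE h1 h2

end Pool.Agent.Results.MP_a0aa5b_al.TwoIncomparable
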